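import Pool.Agent.R496.CZ.Main

/-!
# MP_584ea6_al: coarse isomorphism of the word metrics on `ℤ` given by sets of primes

For a finite set `Q` of primes let `Q*` be the set of the positive integers all of whose prime
factors lie in `Q` and let `d_Q` be the word metric on `ℤ` with respect to `± Q*`. For non-empty
finite sets of primes `Q₁`, `Q₂` the coarse groups `(ℤ, d_{Q₁})`, `(ℤ, d_{Q₂})` are coarsely
isomorphic only if `Q₁ = Q₂`.

Idea: let `p` be a prime and `r = |Q \ {p}|`. By the theorem on `S`-unit equations the elements of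
`ℤ` whose `p`-fold is bounded form a coarse group isomorphic to `F_p[ℕ ^ r]` (finite formal sums of
points modulo bounded moves of points). If `F_p[ℕ ^ a]` is a coarse retract of `F_p[ℕ ^ b]`, the
maps can be lifted to bounded chain maps of cubical chain complexes, and a linear isoperimetric
inequality in the top degree shows `a ≤ b`. So `|Q₁ \ {p}| = |Q₂ \ {p}|` for all primes `p`.
-/

set_option autoImplicit false

namespace Pool.Agent.Results.MP_584ea6_al.CoarseWordMetrics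

open Finset Pool.Agent.R496.CZ

/-- `Q*`: the positive integers all of whose prime factors lie in `Q`. -/
def Star (Q : Finset ℕ) : Set ℕ := {n | 0 < n ∧ ∀ l : ℕ, l.Prime → l ∣ n → l ∈ Q}

/-- The word metric: `dist Q m n` is the least `k` such that `m - n` is a sum of `k` integers each
of which is, up to sign, an element of `Q*`. -/
noncomputable def dist (Q : Finset ℕ) (m n : ℤ) : ℕ :=
  sInf {k : ℕ | ∃ s : Fin k → ℤ, (∀ i, (s i).natAbs ∈ Star Q) ∧ m - n = ∑ i, s i}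

/-- `f` is controlled from the metric `d` to the metric `d'`. -/
def Controlled (d d' : ℤ → ℤ → ℕ) (f : ℤ → ℤ) : Prop :=
  ∀ r, ∃ R, ∀ x y, d x y ≤ r → d' (f x) (f y) ≤ R

/-- The coarse groups `(ℤ, d)` and `(ℤ, d')` are coarsely isomorphic: there are a coarse
homomorphism `f` from `(ℤ, d)` to `(ℤ, d')` and a controlled map `g` from `(ℤ, d')` to `(ℤ, d)`
such that `g ∘ f` and `f ∘ g` are at bounded distance from the identity. -/
def CoarselyIsomorphic (d d' : ℤ → ℤ → ℕ) : Prop :=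
  ∃ f g : ℤ → ℤ, Controlled d d' f ∧ (∃ C, ∀ x y, d' (f (x + y)) (f x + f y) ≤ C) ∧
    Controlled d' d g ∧ (∃ C, ∀ x, d (g (f x)) x ≤ C) ∧ ∃ C, ∀ y, d' (f (g y)) y ≤ C

theorem natAbs_mem {Q : Finset ℕ} {s : ℤ} : s.natAbs ∈ Star Q ↔ QS Q s := by
  constructor
  · rintro ⟨h1, h2⟩
    exact ⟨Int.natAbs_pos.1 h1, fun l hl hd => h2 l hl (Int.natCast_dvd.1 hd)⟩
  · rintro ⟨h1, h2⟩
    exact ⟨Int.natAbs_pos.2 h1, fun l hl hd => h2 l hl (Int.natCast_dvd.2 hd)⟩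

theorem dist_le {Q : Finset ℕ} {m n : ℤ} {k : ℕ} : dist Q m n ≤ k ↔ W Q k (m - n) := by
  have hlist : ∀ l : List ℤ, (∀ s ∈ l, QS Q s) → l.sum = m - n →
      l.length ∈ {k : ℕ | ∃ s : Fin k → ℤ, (∀ i, (s i).natAbs ∈ Star Q) ∧ m - n = ∑ i, s i} := by
    intro l h2 h3
    refine ⟨fun i => l.get i, fun i => natAbs_mem.2 (h2 _ (List.get_mem l i)), ?_⟩
    rw [← h3]
    conv_lhs => rw [← List.ofFn_get l]
    rw [List.sum_ofFn]
  constructor
  · intro h
    obtain ⟨l, _, h2, h3⟩ := W.int (Q := Q) (m - n)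
    obtain ⟨s, hs, hsum⟩ := Nat.sInf_mem ⟨_, hlist l h2 h3⟩
    refine ⟨List.ofFn s, by rw [List.length_ofFn]; exact h, ?_, ?_⟩
    · intro t ht
      obtain ⟨i, rfl⟩ := (List.mem_ofFn' _ _).1 ht
      exact natAbs_mem.1 (hs i)
    · rw [List.sum_ofFn, ← hsum]
  · rintro ⟨l, h1, h2, h3⟩
    exact (Nat.sInf_le (hlist l h2 h3)).trans h1

theorem ctrl {Q Q' : Finset ℕ} {f : ℤ → ℤ} (h : Controlled (dist Q) (dist Q') f) :
    ∀ r, ∃ R, ∀ x y, W Q r (x - y) → W Q' R (f x - f y) := by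
  intro r
  obtain ⟨R, hR⟩ := h r
  exact ⟨R, fun x y hxy => dist_le.1 (hR x y (dist_le.2 hxy))⟩

/-- For non-empty finite sets of primes `Q₁`, `Q₂` the coarse groups `(ℤ, d_{Q₁})`, `(ℤ, d_{Q₂})`
are coarsely isomorphic if and only if `Q₁ = Q₂`. -/
theorem result (Q₁ Q₂ : Finset ℕ) (_hne₁ : Q₁.Nonempty) (_hne₂ : Q₂.Nonempty)
    (h₁ : ∀ q ∈ Q₁, q.Prime) (h₂ : ∀ q ∈ Q₂, q.Prime) :
    CoarselyIsomorphic (dist Q₁) (dist Q₂) ↔ Q₁ = Q₂ := by
  constructor
  · rintro ⟨f, g, hf, ⟨C, hC⟩, hg, ⟨C', hC'⟩, ⟨C'', hC''⟩⟩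
    have f1 := ctrl hf
    have g1 := ctrl hg
    have f2 : ∀ x y, W Q₂ C (f (x + y) - (f x + f y)) := fun x y => dist_le.1 (hC x y)
    have gf : ∀ x, W Q₁ C' (g (f x) - x) := fun x => dist_le.1 (hC' x)
    have fg : ∀ y, W Q₂ C'' (f (g y) - y) := fun y => dist_le.1 (hC'' y)
    have g2 : ∃ K, ∀ x y, W Q₁ K (g (x + y) - (g x + g y)) := by
      obtain ⟨R, hR⟩ := g1 (C'' + C'' + C)
      refine ⟨R + C', fun x y => ?_⟩
      have e1 : W Q₂ (C'' + C'' + C) ((x + y) - f (g x + g y)) :=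
        (((fg x).neg.add (fg y).neg).sub (f2 (g x) (g y))).congr (by ring)
      exact ((hR _ _ e1).add (gf (g x + g y))).congr (by ring)
    exact eq_of_ret h₁ h₂ ⟨f1, ⟨C, f2⟩, g1, g2, ⟨C', gf⟩⟩ ⟨g1, g2, f1, ⟨C, f2⟩, ⟨C'', fg⟩⟩
  · rintro rfl
    have h0 : ∀ x : ℤ, dist Q₁ x x ≤ 0 := fun x => dist_le.2 (by rw [sub_self]; exact W.zero)
    exact ⟨id, id, fun r => ⟨r, fun _ _ h => h⟩, ⟨0, fun x y => h0 _⟩, fun r => ⟨r, fun _ _ h => h⟩,
      ⟨0, fun x => h0 x⟩, ⟨0, fun x => h0 x⟩⟩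

end Pool.Agent.Results.MP_584ea6_al.CoarseWordMetrics
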